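import Pool.Agent.V1198.FBL

/-!
# The free Banach lattice over the two-dimensional `ℓ_1` has the Daugavet property

If `‖g‖ ≤ 1` then `|g| ≤ h = l |δ_{e_0}| + (1 - l) |δ_{e_1}|` for some `l ∈ [0, 1]`. The function `g`
is changed in narrow cones, without leaving `[-h, h]` and with a small change of a given functional,
so that it takes the values `± h` at (perturbations of) the points of a family that almost norms `z`.
-/

set_option autoImplicit false

noncomputable section

open Filter Topology Pool.Agent.V1198.FB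

namespace Pool.Agent.Results.MP_207313_an.DaugavetPlane

/-- `X` has the Daugavet property: `‖I + T‖ = 1 + ‖T‖` for all bounded operators `T` on `X` with
one-dimensional range. -/
def Daugavet (X : Type*) [NormedAddCommGroup X] [NormedSpace ℝ X] : Prop :=
  ∀ T : X →L[ℝ] X, Module.finrank ℝ T.range = 1 → ‖ContinuousLinearMap.id ℝ X + T‖ = 1 + ‖T‖

theorem exists_smulRight {X : Type*} [NormedAddCommGroup X] [NormedSpace ℝ X] {T : X →L[ℝ] X}
    (h : Module.finrank ℝ T.range = 1) :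
    ∃ (f : X →L[ℝ] ℝ) (z : X), f ≠ 0 ∧ z ≠ 0 ∧ T = f.smulRight z := by
  obtain ⟨⟨z, ⟨x, hx⟩⟩, hz, hsp⟩ := finrank_eq_one_iff'.mp h
  have hz0 : z ≠ 0 := fun h0 => hz (Subtype.ext h0)
  obtain ⟨g, _, hg⟩ := exists_dual_vector ℝ z (norm_ne_zero_iff.mpr hz0)
  have hgz : g z = ‖z‖ := hg
  have hzn : ‖z‖ ≠ 0 := norm_ne_zero_iff.mpr hz0
  have hT : T = (‖z‖⁻¹ • g.comp T).smulRight z := by
    ext y
    obtain ⟨c, hc⟩ := hsp ⟨T y, ⟨y, rfl⟩⟩
    have hc' : c • z = T y := congrArg Subtype.val hc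
    rw [ContinuousLinearMap.smulRight_apply, _root_.smul_apply, ContinuousLinearMap.comp_apply,
      ← hc', map_smul, hgz, smul_eq_mul, smul_eq_mul, mul_left_comm, inv_mul_cancel₀ hzn, mul_one]
  refine ⟨_, z, fun h0 => ?_, hz0, hT⟩
  rw [h0] at hT
  have hx' : T x = z := hx
  rw [hT] at hx'
  apply hz0
  rw [← hx', ContinuousLinearMap.smulRight_apply, _root_.zero_apply, zero_smul]

/-! ### General facts -/

section General

variable {E : Type*} [NormedAddCommGroup E] [NormedSpace ℝ E]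

theorem continuous_of_mem {f : H E} (hf : f ∈ FBLsub E) : Continuous (f : Dual' E → ℝ) := by
  have h1 : sublattice E ≤
      { carrier := {f : H E | Continuous (f : Dual' E → ℝ)}
        add_mem' := fun {a b} ha hb => Continuous.add ha hb
        zero_mem' := continuous_const
        smul_mem' := fun c a ha => Continuous.mul continuous_const ha } := by
    refine sInf_le ⟨fun x => ?_, fun f hf => ?_⟩
    · exact (ContinuousLinearMap.apply ℝ ℝ x).continuous
    · exact Continuous.abs hf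
  rw [Metric.continuous_iff]
  intro φ ε hε
  have hf' : f ∈ closure (sublattice E : Set (H E)) := hf
  obtain ⟨g, hg, hfg⟩ := Metric.mem_closure_iff.mp hf' (ε / (4 * (‖φ‖ + 1))) (by positivity)
  rw [dist_eq_norm] at hfg
  have hgc : Continuous (g : Dual' E → ℝ) := h1 hg
  obtain ⟨δ, hδ, hgδ⟩ := Metric.continuous_iff.mp hgc φ (ε / 4) (by positivity)
  refine ⟨min δ 1, lt_min hδ one_pos, fun ψ hψ => ?_⟩
  have h2 := hgδ ψ (lt_of_lt_of_le hψ (min_le_left _ _))
  have h3 : ‖ψ‖ ≤ ‖φ‖ + 1 := by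
    have h4 : ‖ψ - φ‖ < 1 := by
      rw [← dist_eq_norm]; exact lt_of_lt_of_le hψ (min_le_right _ _)
    have h5 := norm_add_le (ψ - φ) φ
    rw [sub_add_cancel] at h5
    linarith
  have h6 : ∀ χ : Dual' E, ‖χ‖ ≤ ‖φ‖ + 1 → |f χ - g χ| ≤ ε / 4 := fun χ hχ => by
    have h7 := (f - g).abs_apply_le χ
    rw [H.sub_apply] at h7
    refine h7.trans ?_
    calc ‖f - g‖ * ‖χ‖ ≤ ε / (4 * (‖φ‖ + 1)) * (‖φ‖ + 1) :=
          mul_le_mul hfg.le hχ (norm_nonneg _) (by positivity)
      _ = ε / 4 := by field_simp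
  have h8 := h6 ψ h3
  have h9 := h6 φ (by linarith)
  rw [Real.dist_eq] at h2 ⊢
  have h10 : f ψ - f φ = (f ψ - g ψ) + (g ψ - g φ) + (g φ - f φ) := by ring
  rw [h10]
  have h11 := abs_add_three (f ψ - g ψ) (g ψ - g φ) (g φ - f φ)
  rw [abs_sub_comm (g φ) (f φ)] at h11
  linarith

theorem norm_mono {f g : H E} (h : ∀ φ, |f φ| ≤ |g φ|) : ‖f‖ ≤ ‖g‖ :=
  H.norm_le fun _ φ hφ => (Finset.sum_le_sum fun i _ => h (φ i)).trans (g.sum_le_norm hφ)

/-- The minimum of two elements of `FBL`. -/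
def finf (f g : FBL E) : FBL E :=
  ⟨-hsup (-(f : H E)) (-(g : H E)), Submodule.neg_mem _ (FBL_hsup_mem (Submodule.neg_mem _ f.2)
    (Submodule.neg_mem _ g.2))⟩

theorem finf_apply (f g : FBL E) (φ : Dual' E) :
    (finf f g : H E) φ = min ((f : H E) φ) ((g : H E) φ) := by
  show -(hsup (-(f : H E)) (-(g : H E)) φ) = _
  rw [hsup_apply, H.neg_apply, H.neg_apply, max_neg_neg, neg_neg]

/-- A quantitative form of: disjoint pieces below a fixed element are almost annihilated. -/
theorem exists_small (F : FBL E →L[ℝ] ℝ) {u : FBL E} {ι : Type} (t : Finset ι) (ht : t.Nonempty)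
    (d : ι → FBL E) (hd : ∀ s ∈ t, ∀ φ, 0 ≤ (d s : H E) φ ∧ (d s : H E) φ ≤ (u : H E) φ)
    (hdisj : ∀ s ∈ t, ∀ s' ∈ t, s ≠ s' → ∀ φ, (d s : H E) φ = 0 ∨ (d s' : H E) φ = 0) :
    ∃ s ∈ t, t.card * |F (d s)| ≤ ‖F‖ * ‖u‖ := by
  classical
  -- a signed sum
  set c : ι → ℝ := fun s => if 0 ≤ F (d s) then 1 else -1 with hc
  have hcabs : ∀ s, |c s| = 1 := fun s => by simp only [hc]; split_ifs <;> norm_num
  have hcF : ∀ s, c s * F (d s) = |F (d s)| := fun s => by
    simp only [hc]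
    split_ifs with h
    · rw [one_mul, abs_of_nonneg h]
    · rw [abs_of_neg (not_le.mp h)]; ring
  set v : FBL E := ∑ s ∈ t, c s • d s with hv
  have hvapp : ∀ φ, (v : H E) φ = ∑ s ∈ t, c s * (d s : H E) φ := fun φ => by
    let ev : FBL E →+ ℝ :=
      { toFun := fun x => (x : H E) φ
        map_zero' := rfl
        map_add' := fun _ _ => rfl }
    have h1 : ev v = ∑ s ∈ t, ev (c s • d s) := map_sum ev _ _
    exact h1
  have hvn : ‖v‖ ≤ ‖u‖ := by
    refine norm_mono (f := (v : H E)) (g := (u : H E)) fun φ => ?_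
    rw [hvapp]
    obtain ⟨s1, hs1⟩ := ht
    have hu0 : 0 ≤ (u : H E) φ := (hd s1 hs1 φ).1.trans (hd s1 hs1 φ).2
    rw [abs_of_nonneg hu0]
    by_cases hex : ∃ s0 ∈ t, (d s0 : H E) φ ≠ 0
    · obtain ⟨s0, hs0, hne⟩ := hex
      rw [Finset.sum_eq_single s0]
      · rw [abs_mul, hcabs, one_mul, abs_of_nonneg (hd s0 hs0 φ).1]
        exact (hd s0 hs0 φ).2
      · intro s hs hss
        rcases hdisj s hs s0 hs0 hss φ with h | h
        · rw [h, mul_zero]
        · exact absurd h hne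
      · exact fun h => absurd hs0 h
    · push Not at hex
      rw [Finset.sum_eq_zero fun s hs => by rw [hex s hs, mul_zero], abs_zero]
      exact hu0
  have hFv : ∑ s ∈ t, |F (d s)| ≤ ‖F‖ * ‖u‖ := by
    have h1 : F v = ∑ s ∈ t, |F (d s)| := by
      rw [hv, map_sum]
      exact Finset.sum_congr rfl fun s _ => by rw [map_smul, smul_eq_mul, hcF]
    rw [← h1]
    refine (le_abs_self _).trans ((F.le_opNorm v).trans ?_)
    exact mul_le_mul_of_nonneg_left hvn (norm_nonneg F)
  obtain ⟨s, hs, hmin⟩ := t.exists_min_image (fun s => |F (d s)|) ht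
  refine ⟨s, hs, ?_⟩
  calc (t.card : ℝ) * |F (d s)| = ∑ _s' ∈ t, |F (d s)| := by
        rw [Finset.sum_const, nsmul_eq_mul]
    _ ≤ ∑ s' ∈ t, |F (d s')| := Finset.sum_le_sum fun s' hs' => hmin s' hs'
    _ ≤ _ := hFv

end General

/-! ### The plane -/

/-- The two-dimensional space `ℓ_1`. -/
abbrev Plane : Type := PiLp 1 (fun _ : Fin 2 => ℝ)

/-- The functional with coordinates `a`, `b`. -/
def fn (a b : ℝ) : Dual' Plane :=
  a • PiLp.proj 1 (fun _ : Fin 2 => ℝ) 0 + b • PiLp.proj 1 (fun _ : Fin 2 => ℝ) 1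

theorem fn_apply (a b : ℝ) (x : Plane) : fn a b x = a * x 0 + b * x 1 := rfl

/-- The unit vectors. -/
def e0 : Plane := WithLp.toLp 1 ![1, 0]

/-- The unit vectors. -/
def e1 : Plane := WithLp.toLp 1 ![0, 1]

theorem fn_e0 (a b : ℝ) : fn a b e0 = a := by rw [fn_apply]; simp [e0]

theorem fn_e1 (a b : ℝ) : fn a b e1 = b := by rw [fn_apply]; simp [e1]

theorem apply_eq (φ : Dual' Plane) (x : Plane) : φ x = x 0 * φ e0 + x 1 * φ e1 := by
  have hx : x = x 0 • e0 + x 1 • e1 := by
    ext i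
    fin_cases i <;> simp [e0, e1]
  conv_lhs => rw [hx]
  rw [map_add, map_smul, map_smul, smul_eq_mul, smul_eq_mul]

theorem norm_eq (x : Plane) : ‖x‖ = |x 0| + |x 1| := by
  rw [PiLp.norm_eq_of_L1, Fin.sum_univ_two, Real.norm_eq_abs, Real.norm_eq_abs]

theorem norm_e0 : ‖e0‖ = 1 := by rw [norm_eq]; simp [e0]

theorem norm_e1 : ‖e1‖ = 1 := by rw [norm_eq]; simp [e1]

theorem adm_iff {m : ℕ} {φ : Fin m → Dual' Plane} :
    Adm φ ↔ ∑ i, |φ i e0| ≤ 1 ∧ ∑ i, |φ i e1| ≤ 1 := by
  constructor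
  · exact fun h => ⟨h e0 norm_e0.le, h e1 norm_e1.le⟩
  · rintro ⟨h0, h1⟩ x hx
    rw [norm_eq] at hx
    calc ∑ i, |φ i x| ≤ ∑ i, (|x 0| * |φ i e0| + |x 1| * |φ i e1|) :=
          Finset.sum_le_sum fun i _ => by
            rw [apply_eq, ← abs_mul, ← abs_mul]
            exact abs_add_le _ _
      _ = |x 0| * ∑ i, |φ i e0| + |x 1| * ∑ i, |φ i e1| := by
          rw [Finset.sum_add_distrib, Finset.mul_sum, Finset.mul_sum]
      _ ≤ 1 := by nlinarith [abs_nonneg (x 0), abs_nonneg (x 1)]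

theorem ext_dual {φ ψ : Dual' Plane} (h0 : φ e0 = ψ e0) (h1 : φ e1 = ψ e1) : φ = ψ := by
  ext x
  rw [apply_eq φ, apply_eq ψ, h0, h1]

/-- The inner product of two functionals. -/
def dot (φ p : Dual' Plane) : ℝ := φ e0 * p e0 + φ e1 * p e1

/-- The cross product of two functionals. -/
def cr (φ p : Dual' Plane) : ℝ := φ e0 * p e1 - φ e1 * p e0

theorem cr_eq_neg (φ p : Dual' Plane) : cr φ p = -cr p φ := by
  simp only [cr]; ring

/-- The bump in the direction `p`. -/
def bump (p : Dual' Plane) (K : ℝ) : H Plane :=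
  hsup (delta (p e0 • e0 + p e1 • e1) - K • habs (delta (p e1 • e0 - p e0 • e1))) 0

theorem bump_apply (p : Dual' Plane) (K : ℝ) (φ : Dual' Plane) :
    bump p K φ = max (dot φ p - K * |cr φ p|) 0 := by
  simp only [bump, hsup_apply, H.sub_apply, H.smul_apply, habs_apply, delta_apply, H.zero_apply,
    map_add, map_sub, map_smul, smul_eq_mul, dot, cr]
  have h1 : p e0 * φ e0 + p e1 * φ e1 = φ e0 * p e0 + φ e1 * p e1 := by ring
  have h2 : p e1 * φ e0 - p e0 * φ e1 = φ e0 * p e1 - φ e1 * p e0 := by ring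
  rw [h1, h2]

theorem bump_mem (p : Dual' Plane) (K : ℝ) : bump p K ∈ FBLsub Plane :=
  sublattice_le (hsup_mem (Submodule.sub_mem _ (delta_mem _)
    (Submodule.smul_mem _ _ (habs_mem (delta_mem _)))) (Submodule.zero_mem _))

theorem dot_self_nonneg (p : Dual' Plane) : 0 ≤ dot p p := by
  simp only [dot]; nlinarith [sq_nonneg (p e0), sq_nonneg (p e1)]

theorem dot_self_pos {p : Dual' Plane} (hp : p ≠ 0) : 0 < dot p p := by
  refine lt_of_le_of_ne (dot_self_nonneg p) fun h => hp ?_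
  simp only [dot] at h
  have h0 : p e0 = 0 := by nlinarith [sq_nonneg (p e0), sq_nonneg (p e1)]
  have h1 : p e1 = 0 := by nlinarith [sq_nonneg (p e0), sq_nonneg (p e1)]
  exact ext_dual h0 h1

theorem dot_sq_le (φ p : Dual' Plane) : dot φ p ^ 2 ≤ dot φ φ * dot p p := by
  simp only [dot]
  nlinarith [sq_nonneg (φ e0 * p e1 - φ e1 * p e0)]

theorem cr_mul (φ p q : Dual' Plane) :
    cr p q * dot φ φ = dot φ p * cr φ q - cr φ p * dot φ q := by
  simp only [cr, dot]; ring

theorem disjoint_of_le {p q : Dual' Plane} {K : ℝ} (hK0 : 0 ≤ K)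
    (hK : dot p p + dot q q ≤ K * |cr p q|) (φ : Dual' Plane) :
    bump p K φ = 0 ∨ bump q K φ = 0 := by
  rw [bump_apply, bump_apply]
  by_contra hcon
  push Not at hcon
  have hp : K * |cr φ p| < dot φ p := by
    by_contra h
    exact hcon.1 (max_eq_right (by linarith))
  have hq : K * |cr φ q| < dot φ q := by
    by_contra h
    exact hcon.2 (max_eq_right (by linarith))
  have hp0 : 0 ≤ K * |cr φ p| := by positivity
  have hq0 : 0 ≤ K * |cr φ q| := by positivity
  have h1 : |cr p q| * dot φ φ ≤ dot φ p * |cr φ q| + |cr φ p| * dot φ q := by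
    have h2 : |cr p q| * dot φ φ = |cr p q * dot φ φ| := by
      rw [abs_mul, abs_of_nonneg (dot_self_nonneg φ)]
    rw [h2, cr_mul]
    refine (abs_sub _ _).trans ?_
    rw [abs_mul, abs_mul, abs_of_pos (hp0.trans_lt hp), abs_of_pos (hq0.trans_lt hq)]
  have h3 := dot_sq_le φ p
  have h4 := dot_sq_le φ q
  have h5 : K * |cr p q| * dot φ φ < 2 * (dot φ p * dot φ q) := by
    have h6 : K * |cr p q| * dot φ φ ≤ dot φ p * (K * |cr φ q|) + (K * |cr φ p|) * dot φ q := by
      nlinarith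
    nlinarith
  have h7 : (dot p p + dot q q) * dot φ φ ≤ K * |cr p q| * dot φ φ :=
    mul_le_mul_of_nonneg_right hK (dot_self_nonneg φ)
  nlinarith [sq_nonneg (dot φ p - dot φ q)]

theorem bump_eq_zero {p q : Dual' Plane} {K : ℝ} (hK : |dot q p| ≤ K * |cr p q|) :
    bump p K q = 0 := by
  rw [bump_apply]
  refine max_eq_right ?_
  have h1 : |cr q p| = |cr p q| := by rw [cr_eq_neg, abs_neg]
  rw [h1]
  have := le_abs_self (dot q p)
  linarith

/-- The functional orthogonal to `p`. -/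
def perp (p : Dual' Plane) : Dual' Plane := fn (-p e1) (p e0)

theorem cr_line (p q : Dual' Plane) (s : ℝ) : cr (p + s • perp p) q = cr p q - s * dot p q := by
  simp only [cr, dot, perp, _root_.add_apply, _root_.smul_apply, fn_e0, fn_e1, smul_eq_mul]
  ring

theorem cr_line_line (p : Dual' Plane) (s s' : ℝ) :
    cr (p + s • perp p) (p + s' • perp p) = (s' - s) * dot p p := by
  simp only [cr, dot, perp, _root_.add_apply, _root_.smul_apply, fn_e0, fn_e1, smul_eq_mul]
  ring

theorem dot_line (p : Dual' Plane) (s : ℝ) :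
    dot (p + s • perp p) (p + s • perp p) = (1 + s ^ 2) * dot p p := by
  simp only [dot, perp, _root_.add_apply, _root_.smul_apply, fn_e0, fn_e1, smul_eq_mul]
  ring

theorem finite_bad {p q : Dual' Plane} (hp : p ≠ 0) (hq : q ≠ 0) :
    {s : ℝ | cr (p + s • perp p) q = 0}.Finite := by
  refine Set.Subsingleton.finite fun s hs s' hs' => ?_
  have hs1 : cr (p + s • perp p) q = 0 := hs
  have hs2 : cr (p + s' • perp p) q = 0 := hs'
  rw [cr_line] at hs1 hs2
  by_contra hne
  have h1 : dot p q = 0 := by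
    have : (s' - s) * dot p q = 0 := by linarith
    rcases mul_eq_zero.mp this with h | h
    · exact absurd (by linarith) hne
    · exact h
  have h2 : cr p q = 0 := by rw [h1] at hs1; linarith
  -- then `p` and `q` are orthogonal and parallel
  have h3 : dot p p * dot q q = dot p q ^ 2 + cr p q ^ 2 := by simp only [dot, cr]; ring
  rw [h1, h2] at h3
  have h4 := dot_self_pos hp
  have h5 := dot_self_pos hq
  nlinarith

/-- The modification at one point. -/
theorem modify_pos (F : FBL Plane →L[ℝ] ℝ) {g h : FBL Plane}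
    (hgh : ∀ φ, |(g : H Plane) φ| ≤ (h : H Plane) φ) (p : Dual' Plane) (Q : Finset (Dual' Plane))
    {ε η : ℝ} (hε : 0 < ε) (hη : 0 < η) :
    ∃ (p' : Dual' Plane) (g' : FBL Plane), dist p' p ≤ η ∧
      (∀ φ, |(g' : H Plane) φ| ≤ (h : H Plane) φ) ∧
      (∀ q ∈ Q, (g' : H Plane) q = (g : H Plane) q) ∧
      (g' : H Plane) p' = (h : H Plane) p' ∧ |F g' - F g| ≤ ε := by
  classical
  by_cases hp : p = 0
  · refine ⟨p, g, by rw [dist_self]; exact hη.le, hgh, fun _ _ => rfl, ?_, ?_⟩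
    · rw [hp, H.apply_zero, H.apply_zero]
    · rw [sub_self, abs_zero]; exact hε.le
  have hpp := dot_self_pos hp
  -- the size of the family
  obtain ⟨n, hn⟩ := exists_nat_gt (‖F‖ * ‖h - g‖ / ε)
  have hn0 : 0 < n := by
    have : (0 : ℝ) < n := lt_of_le_of_lt (by positivity) hn
    exact_mod_cast this
  -- the parameters
  set η' := η / (‖perp p‖ + 1) with hη'
  have hη'0 : 0 < η' := by positivity
  have hinf : (Set.Ioo 0 η' \ ⋃ q ∈ Q.filter (fun q => q ≠ 0),
      {s : ℝ | cr (p + s • perp p) q = 0}).Infinite := by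
    refine Set.Infinite.sdiff (Set.Ioo_infinite hη'0) ?_
    refine Set.Finite.biUnion (Finset.finite_toSet _) fun q hq => ?_
    exact finite_bad hp (Finset.mem_filter.mp (Finset.mem_coe.mp hq)).2
  obtain ⟨t, htsub, htcard⟩ := hinf.exists_subset_card_eq n
  have ht : ∀ s ∈ t, 0 < s ∧ s < η' ∧ ∀ q ∈ Q, q ≠ 0 → cr (p + s • perp p) q ≠ 0 := by
    intro s hs
    have h1 := htsub (Finset.mem_coe.mpr hs)
    refine ⟨h1.1.1, h1.1.2, fun q hq hq0 h2 => h1.2 ?_⟩
    exact Set.mem_biUnion (Finset.mem_coe.mpr (Finset.mem_filter.mpr ⟨hq, hq0⟩)) h2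
  have htne : t.Nonempty := Finset.card_pos.mp (by rw [htcard]; exact hn0)
  -- the parameter `K`
  have hev1 : ∀ᶠ K : ℝ in atTop, ∀ s ∈ t, ∀ s' ∈ t, s ≠ s' →
      dot (p + s • perp p) (p + s • perp p) + dot (p + s' • perp p) (p + s' • perp p) ≤
        K * |cr (p + s • perp p) (p + s' • perp p)| := by
    refine (Filter.eventually_all_finset t).mpr fun s hs =>
      (Filter.eventually_all_finset t).mpr fun s' hs' => ?_
    by_cases hss : s = s'
    · exact Eventually.of_forall fun K h => absurd hss h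
    · have h1 : 0 < |cr (p + s • perp p) (p + s' • perp p)| := by
        rw [cr_line_line]
        exact abs_pos.mpr (mul_ne_zero (sub_ne_zero.mpr fun h => hss h.symm) hpp.ne')
      exact ((tendsto_id.atTop_mul_const h1).eventually_ge_atTop _).mono fun K h _ => h
  have hev2 : ∀ᶠ K : ℝ in atTop, ∀ s ∈ t, ∀ q ∈ Q, q ≠ 0 →
      |dot q (p + s • perp p)| ≤ K * |cr (p + s • perp p) q| := by
    refine (Filter.eventually_all_finset t).mpr fun s hs =>
      (Filter.eventually_all_finset Q).mpr fun q hq => ?_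
    by_cases hq0 : q = 0
    · exact Eventually.of_forall fun K h => absurd hq0 h
    · have h1 : 0 < |cr (p + s • perp p) q| := abs_pos.mpr ((ht s hs).2.2 q hq hq0)
      exact ((tendsto_id.atTop_mul_const h1).eventually_ge_atTop _).mono fun K h _ => h
  obtain ⟨K, hK1, hK2, hK0⟩ := (hev1.and (hev2.and (eventually_ge_atTop 0))).exists
  -- the pieces
  set P : ℝ → Dual' Plane := fun s => p + s • perp p with hP
  have hbump : ∀ s, 0 < bump (P s) K (P s) := fun s => by
    rw [bump_apply]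
    have h1 : cr (P s) (P s) = 0 := by simp only [cr]; ring
    rw [h1, abs_zero, mul_zero, sub_zero, hP]
    beta_reduce
    rw [dot_line]
    exact lt_max_of_lt_left (by positivity)
  set M : ℝ → ℝ := fun s => ((h - g : FBL Plane) : H Plane) (P s) / bump (P s) K (P s) with hM
  have hhg : ∀ φ, 0 ≤ ((h - g : FBL Plane) : H Plane) φ := fun φ => by
    have h1 := (abs_le.mp (hgh φ)).2
    show 0 ≤ (h : H Plane) φ - (g : H Plane) φ
    linarith
  have hM0 : ∀ s, 0 ≤ M s := fun s => div_nonneg (hhg _) (hbump s).le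
  set d : ℝ → FBL Plane := fun s => finf (h - g) (M s • ⟨bump (P s) K, bump_mem _ _⟩) with hd
  have hdapp : ∀ s φ, (d s : H Plane) φ =
      min (((h - g : FBL Plane) : H Plane) φ) (M s * bump (P s) K φ) := fun s φ => by
    simp only [hd]
    rw [finf_apply]
    rfl
  have hb0 : ∀ s φ, 0 ≤ bump (P s) K φ := fun s φ => by rw [bump_apply]; exact le_max_right _ _
  have hd0 : ∀ s φ, 0 ≤ (d s : H Plane) φ := fun s φ => by
    rw [hdapp]
    exact le_min (hhg φ) (mul_nonneg (hM0 s) (hb0 s φ))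
  have hd1 : ∀ s φ, (d s : H Plane) φ ≤ ((h - g : FBL Plane) : H Plane) φ := fun s φ => by
    rw [hdapp]; exact min_le_left _ _
  have hdz : ∀ s φ, bump (P s) K φ = 0 → (d s : H Plane) φ = 0 := fun s φ h0 => by
    rw [hdapp, h0, mul_zero]
    exact min_eq_right (hhg φ)
  obtain ⟨s, hs, hsmall⟩ := exists_small F (u := h - g) t htne d
    (fun s _ φ => ⟨hd0 s φ, hd1 s φ⟩) (fun s hs s' hs' hss φ => by
      rcases disjoint_of_le hK0 (hK1 s hs s' hs' hss) φ with h0 | h0
      · exact Or.inl (hdz s φ h0)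
      · exact Or.inr (hdz s' φ h0))
  refine ⟨P s, g + d s, ?_, ?_, ?_, ?_, ?_⟩
  · rw [hP, dist_eq_norm, add_sub_cancel_left, norm_smul, Real.norm_eq_abs,
      abs_of_pos (ht s hs).1]
    have h1 := (ht s hs).2.1
    calc s * ‖perp p‖ ≤ η' * (‖perp p‖ + 1) := by
          refine mul_le_mul h1.le (by linarith) (norm_nonneg _) hη'0.le
      _ = η := by rw [hη']; field_simp
  · intro φ
    show |(g : H Plane) φ + (d s : H Plane) φ| ≤ _
    have h1 := abs_le.mp (hgh φ)
    have h2 := hd0 s φ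
    have h3 : (d s : H Plane) φ ≤ (h : H Plane) φ - (g : H Plane) φ := hd1 s φ
    rw [abs_le]
    constructor <;> linarith
  · intro q hq
    show (g : H Plane) q + (d s : H Plane) q = _
    have h1 : (d s : H Plane) q = 0 := by
      by_cases hq0 : q = 0
      · rw [hq0, H.apply_zero]
      · exact hdz s q (bump_eq_zero (hK2 s hs q hq hq0))
    rw [h1, add_zero]
  · show (g : H Plane) (P s) + (d s : H Plane) (P s) = _
    rw [hdapp]
    have h1 : M s * bump (P s) K (P s) = ((h - g : FBL Plane) : H Plane) (P s) :=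
      div_mul_cancel₀ _ (hbump s).ne'
    rw [h1, min_self]
    show (g : H Plane) (P s) + ((h : H Plane) (P s) - (g : H Plane) (P s)) = _
    ring
  · rw [map_add, add_sub_cancel_left]
    rw [htcard] at hsmall
    rw [div_lt_iff₀ hε] at hn
    have h1 : (0 : ℝ) < n := by exact_mod_cast hn0
    have h2 : (n : ℝ) * |F (d s)| < n * ε := lt_of_le_of_lt hsmall hn
    exact (lt_of_mul_lt_mul_left h2 h1.le).le

theorem modify (F : FBL Plane →L[ℝ] ℝ) {g h : FBL Plane}
    (hgh : ∀ φ, |(g : H Plane) φ| ≤ (h : H Plane) φ) (p : Dual' Plane) (Q : Finset (Dual' Plane))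
    {ε η : ℝ} (hε : 0 < ε) (hη : 0 < η) {c : ℝ} (hc : c = 1 ∨ c = -1) :
    ∃ (p' : Dual' Plane) (g' : FBL Plane), dist p' p ≤ η ∧
      (∀ φ, |(g' : H Plane) φ| ≤ (h : H Plane) φ) ∧
      (∀ q ∈ Q, (g' : H Plane) q = (g : H Plane) q) ∧
      (g' : H Plane) p' = c * (h : H Plane) p' ∧ |F g' - F g| ≤ ε := by
  rcases hc with rfl | rfl
  · obtain ⟨p', g', h1, h2, h3, h4, h5⟩ := modify_pos F hgh p Q hε hη
    exact ⟨p', g', h1, h2, h3, by rw [one_mul]; exact h4, h5⟩
  · obtain ⟨p', g', h1, h2, h3, h4, h5⟩ := modify_pos F (g := -g) (h := h) (fun φ => by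
      show |-(g : H Plane) φ| ≤ _
      rw [abs_neg]
      exact hgh φ) p Q hε hη
    refine ⟨p', -g', h1, fun φ => ?_, fun q hq => ?_, ?_, ?_⟩
    · show |-(g' : H Plane) φ| ≤ _
      rw [abs_neg]
      exact h2 φ
    · have h6 : (g' : H Plane) q = -(g : H Plane) q := h3 q hq
      show -(g' : H Plane) q = _
      rw [h6, neg_neg]
    · show -(g' : H Plane) p' = _
      rw [h4]
      ring
    · rw [map_neg] at h5 ⊢
      have h6 : -F g' - F g = -(F g' - -F g) := by ring
      rw [h6, abs_neg]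
      exact h5

theorem modify_family (F : FBL Plane →L[ℝ] ℝ) {h : FBL Plane} {ε η : ℝ} (hε : 0 < ε) (hη : 0 < η)
    (m : ℕ) : ∀ (g : FBL Plane), (∀ φ, |(g : H Plane) φ| ≤ (h : H Plane) φ) →
      ∀ (p : Fin m → Dual' Plane) (c : Fin m → ℝ), (∀ i, c i = 1 ∨ c i = -1) →
    ∃ (p' : Fin m → Dual' Plane) (g' : FBL Plane), (∀ i, dist (p' i) (p i) ≤ η) ∧
      (∀ φ, |(g' : H Plane) φ| ≤ (h : H Plane) φ) ∧
      (∀ i, (g' : H Plane) (p' i) = c i * (h : H Plane) (p' i)) ∧ |F g' - F g| ≤ m * ε := by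
  classical
  induction m with
  | zero =>
    intro g hgh p c _
    exact ⟨p, g, fun i => i.elim0, hgh, fun i => i.elim0, by simp⟩
  | succ m ih =>
    intro g hgh p c hc
    obtain ⟨p1, g1, h1, h2, h3, h4⟩ := ih g hgh (fun i => p i.succ) (fun i => c i.succ)
      fun i => hc i.succ
    obtain ⟨p0, g0, k1, k2, k3, k4, k5⟩ := modify F h2 (p 0) (Finset.univ.image p1) hε hη (hc 0)
    refine ⟨Fin.cons p0 p1, g0, fun i => ?_, k2, fun i => ?_, ?_⟩
    · refine Fin.cases ?_ (fun j => ?_) i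
      · rw [Fin.cons_zero]; exact k1
      · rw [Fin.cons_succ]; exact h1 j
    · refine Fin.cases ?_ (fun j => ?_) i
      · rw [Fin.cons_zero]; exact k4
      · rw [Fin.cons_succ, k3 _ (Finset.mem_image_of_mem _ (Finset.mem_univ j))]
        exact h3 j
    · have h5 : F g0 - F g = (F g0 - F g1) + (F g1 - F g) := by ring
      rw [h5, Nat.cast_succ, add_mul, one_mul]
      refine (abs_add_le _ _).trans ?_
      linarith

/-! ### The dominating function -/

/-- The function `l |δ_{e_0}| + (1 - l) |δ_{e_1}|`. -/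
def dom (l : ℝ) : FBL Plane :=
  ⟨l • habs (delta e0) + (1 - l) • habs (delta e1), Submodule.add_mem _
    (Submodule.smul_mem _ _ (sublattice_le (habs_mem (delta_mem e0))))
    (Submodule.smul_mem _ _ (sublattice_le (habs_mem (delta_mem e1))))⟩

theorem dom_apply (l : ℝ) (φ : Dual' Plane) :
    (dom l : H Plane) φ = l * |φ e0| + (1 - l) * |φ e1| := rfl

theorem exists_dom {g : H Plane} (hg : ‖g‖ ≤ 1) :
    ∃ l : ℝ, 0 ≤ l ∧ l ≤ 1 ∧ ∀ φ, |g φ| ≤ l * |φ e0| + (1 - l) * |φ e1| := by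
  -- single functionals
  have hs0 : ∀ φ : Dual' Plane, |φ e1| ≤ |φ e0| → |g φ| ≤ |φ e0| := fun φ h => by
    rcases (abs_nonneg (φ e0)).eq_or_lt with h0 | h0
    · have h1 : φ = 0 := ext_dual (abs_eq_zero.mp h0.symm)
        (abs_eq_zero.mp (le_antisymm (by rw [h0]; exact h) (abs_nonneg _)))
      rw [h1, g.apply_zero]
      simp
    · have h1 : Adm (fun _ : Fin 1 => |φ e0|⁻¹ • φ) := adm_iff.mpr (by
        rw [Fin.sum_univ_one, Fin.sum_univ_one, _root_.smul_apply, _root_.smul_apply, smul_eq_mul,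
          smul_eq_mul, abs_mul, abs_mul, abs_inv, abs_abs, inv_mul_le_iff₀ h0, inv_mul_le_iff₀ h0]
        constructor <;> linarith)
      have h2 := (g.sum_le_norm h1).trans hg
      rw [Fin.sum_univ_one, g.hom _ _ (inv_nonneg.mpr h0.le), abs_mul, abs_inv, abs_abs,
        inv_mul_le_iff₀ h0, mul_one] at h2
      exact h2
  have hs1 : ∀ φ : Dual' Plane, |φ e0| ≤ |φ e1| → |g φ| ≤ |φ e1| := fun φ h => by
    rcases (abs_nonneg (φ e1)).eq_or_lt with h0 | h0
    · have h1 : φ = 0 := ext_dual (abs_eq_zero.mp (le_antisymm (by rw [h0]; exact h)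
        (abs_nonneg _))) (abs_eq_zero.mp h0.symm)
      rw [h1, g.apply_zero]
      simp
    · have h1 : Adm (fun _ : Fin 1 => |φ e1|⁻¹ • φ) := adm_iff.mpr (by
        rw [Fin.sum_univ_one, Fin.sum_univ_one, _root_.smul_apply, _root_.smul_apply, smul_eq_mul,
          smul_eq_mul, abs_mul, abs_mul, abs_inv, abs_abs, inv_mul_le_iff₀ h0, inv_mul_le_iff₀ h0]
        constructor <;> linarith)
      have h2 := (g.sum_le_norm h1).trans hg
      rw [Fin.sum_univ_one, g.hom _ _ (inv_nonneg.mpr h0.le), abs_mul, abs_inv, abs_abs,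
        inv_mul_le_iff₀ h0, mul_one] at h2
      exact h2
  -- lower and upper bounds for `l`
  set L : Set ℝ := insert 0 {r | ∃ p : Dual' Plane, |p e1| < |p e0| ∧
    r = (|g p| - |p e1|) / (|p e0| - |p e1|)} with hL
  have hup : ∀ q : Dual' Plane, |q e0| < |q e1| →
      ∀ r ∈ L, r ≤ (|q e1| - |g q|) / (|q e1| - |q e0|) := by
    intro q hq r hr
    have hq1 : 0 < |q e1| - |q e0| := by linarith
    rcases hr with rfl | ⟨p, hp, rfl⟩
    · exact div_nonneg (by linarith [hs1 q hq.le]) hq1.le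
    · have hp1 : 0 < |p e0| - |p e1| := by linarith
      -- the family
      set α := |p e0| - |p e1| with hα
      set β := |q e1| - |q e0| with hβ
      set T := |p e0| / α + |q e0| / β with hT
      have hT1 : T = |p e1| / α + |q e1| / β := by
        rw [hT, div_add_div _ _ hp1.ne' hq1.ne', div_add_div _ _ hp1.ne' hq1.ne']
        congr 1
        rw [hα, hβ]
        ring
      have hT0 : 0 < T := by
        have h1 : 0 < |p e0| / α := div_pos (by linarith [abs_nonneg (p e1)]) hp1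
        have h2 : 0 ≤ |q e0| / β := div_nonneg (abs_nonneg _) hq1.le
        rw [hT]; linarith
      have hadm : Adm (![(T * α)⁻¹ • p, (T * β)⁻¹ • q]) := adm_iff.mpr (by
        rw [Fin.sum_univ_two, Fin.sum_univ_two]
        simp only [Matrix.cons_val_zero, Matrix.cons_val_one, _root_.smul_apply, smul_eq_mul,
          abs_mul, abs_inv, abs_of_pos hT0, abs_of_pos hp1, abs_of_pos hq1]
        constructor
        · have h1 : (T * α)⁻¹ * |p e0| + (T * β)⁻¹ * |q e0| =
              T⁻¹ * (|p e0| / α + |q e0| / β) := by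
            field_simp
          rw [h1, ← hT, inv_mul_cancel₀ hT0.ne']
        · have h1 : (T * α)⁻¹ * |p e1| + (T * β)⁻¹ * |q e1| =
              T⁻¹ * (|p e1| / α + |q e1| / β) := by
            field_simp
          rw [h1, ← hT1, inv_mul_cancel₀ hT0.ne'])
      have h2 := (g.sum_le_norm hadm).trans hg
      rw [Fin.sum_univ_two] at h2
      simp only [Matrix.cons_val_zero, Matrix.cons_val_one] at h2
      have hTα : 0 < (T * α)⁻¹ := inv_pos.mpr (mul_pos hT0 hp1)
      have hTβ : 0 < (T * β)⁻¹ := inv_pos.mpr (mul_pos hT0 hq1)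
      rw [g.hom _ _ hTα.le, g.hom _ _ hTβ.le, abs_mul, abs_mul, abs_of_pos hTα,
        abs_of_pos hTβ] at h2
      have h3 : |g p| / α + |g q| / β ≤ T := by
        have h4 : (T * α)⁻¹ * |g p| + (T * β)⁻¹ * |g q| = T⁻¹ * (|g p| / α + |g q| / β) := by
          field_simp
        rw [h4, inv_mul_le_iff₀ hT0, mul_one] at h2
        exact h2
      have h5 : (|g p| - |p e1|) / α = |g p| / α - |p e1| / α := sub_div _ _ _
      have h6 : (|q e1| - |g q|) / β = |q e1| / β - |g q| / β := sub_div _ _ _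
      rw [h5, h6]
      rw [hT1] at h3
      linarith
  have hle1 : ∀ r ∈ L, r ≤ 1 := by
    intro r hr
    rcases hr with rfl | ⟨p, hp, rfl⟩
    · exact zero_le_one
    · rw [div_le_one (by linarith)]
      linarith [hs0 p hp.le]
  have hne : L.Nonempty := ⟨0, Set.mem_insert _ _⟩
  have hbdd : BddAbove L := ⟨1, hle1⟩
  refine ⟨sSup L, le_csSup hbdd (Set.mem_insert _ _), csSup_le hne hle1, fun φ => ?_⟩
  rcases lt_trichotomy |φ e1| |φ e0| with h | h | h
  · have h1 : (|g φ| - |φ e1|) / (|φ e0| - |φ e1|) ≤ sSup L :=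
      le_csSup hbdd (Set.mem_insert_of_mem _ ⟨φ, h, rfl⟩)
    rw [div_le_iff₀ (by linarith)] at h1
    linarith
  · have h1 := hs0 φ h.le
    rw [h]
    linarith
  · have h1 : sSup L ≤ (|φ e1| - |g φ|) / (|φ e1| - |φ e0|) := csSup_le hne (hup φ h)
    rw [le_div_iff₀ (by linarith)] at h1
    linarith

theorem norm_dom_le {l : ℝ} (h0 : 0 ≤ l) (h1 : l ≤ 1) : ‖(dom l : H Plane)‖ ≤ 1 :=
  H.norm_le fun m φ hφ => by
    obtain ⟨ha, hb⟩ := adm_iff.mp hφ
    have h2 : ∀ i, |(dom l : H Plane) (φ i)| = l * |φ i e0| + (1 - l) * |φ i e1| := fun i => by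
      rw [dom_apply, abs_of_nonneg]
      have := abs_nonneg (φ i e0)
      have := abs_nonneg (φ i e1)
      have := sub_nonneg.mpr h1
      positivity
    simp only [h2]
    rw [Finset.sum_add_distrib, ← Finset.mul_sum, ← Finset.mul_sum]
    nlinarith

/-! ### The Daugavet property -/

theorem slice (z : FBL Plane) (hz : ‖z‖ = 1) (F : FBL Plane →L[ℝ] ℝ) (hF : ‖F‖ = 1) {ε : ℝ}
    (hε : 0 < ε) : ∃ y : FBL Plane, ‖y‖ ≤ 1 ∧ 1 - ε ≤ F y ∧ 2 - ε ≤ ‖z + y‖ := by
  classical
  -- an element of the slice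
  obtain ⟨g, hg, hFg⟩ : ∃ g : FBL Plane, ‖g‖ ≤ 1 ∧ 1 - ε / 2 < F g := by
    obtain ⟨x, hx, hx2⟩ := F.exists_lt_apply_of_lt_opNorm (r := 1 - ε / 2) (by rw [hF]; linarith)
    rcases le_total 0 (F x) with h | h
    · exact ⟨x, hx.le, by rwa [Real.norm_eq_abs, abs_of_nonneg h] at hx2⟩
    · exact ⟨-x, by rw [norm_neg]; exact hx.le, by
        rw [map_neg]; rwa [Real.norm_eq_abs, abs_of_nonpos h] at hx2⟩
  obtain ⟨l, hl0, hl1, hl⟩ := exists_dom (g := (g : H Plane)) hg
  set h := dom l with hh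
  have hgh : ∀ φ, |(g : H Plane) φ| ≤ (h : H Plane) φ := fun φ => by
    rw [hh, dom_apply]; exact hl φ
  -- a family that almost norms `z`, completed
  have hz' : ‖(z : H Plane)‖ = 1 := hz
  obtain ⟨m0, p0, hp0, hs0⟩ := H.exists_lt (f := (z : H Plane)) (C := 1 - ε / 8)
    (by rw [hz']; linarith)
  obtain ⟨ha0, hb0⟩ := adm_iff.mp hp0
  obtain ⟨m, p, hpa, hpb, hs⟩ : ∃ (m : ℕ) (p : Fin m → Dual' Plane), ∑ i, |p i e0| = 1 ∧
      ∑ i, |p i e1| = 1 ∧ 1 - ε / 8 < ∑ i, |(z : H Plane) (p i)| := by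
    refine ⟨m0 + 1 + 1, Fin.cons (fn (1 - ∑ i, |p0 i e0|) 0)
      (Fin.cons (fn 0 (1 - ∑ i, |p0 i e1|)) p0), ?_, ?_, ?_⟩
    · rw [Fin.sum_univ_succ, Fin.sum_univ_succ]
      simp only [Fin.cons_zero, Fin.cons_succ, fn_e0, abs_zero]
      rw [abs_of_nonneg (by linarith)]
      ring
    · rw [Fin.sum_univ_succ, Fin.sum_univ_succ]
      simp only [Fin.cons_zero, Fin.cons_succ, fn_e1, abs_zero]
      rw [abs_of_nonneg (by linarith)]
      ring
    · rw [Fin.sum_univ_succ, Fin.sum_univ_succ]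
      simp only [Fin.cons_zero, Fin.cons_succ]
      have h1 := abs_nonneg ((z : H Plane) (fn (1 - ∑ i, |p0 i e0|) 0))
      have h2 := abs_nonneg ((z : H Plane) (fn 0 (1 - ∑ i, |p0 i e1|)))
      linarith
  have hm : 0 < m := by
    rcases Nat.eq_zero_or_pos m with h0 | h0
    · subst h0
      rw [Fin.sum_univ_zero] at hpa
      exact absurd hpa (by norm_num)
    · exact h0
  have hm' : (0 : ℝ) < m := by exact_mod_cast hm
  -- continuity of `z`
  have hzc : Continuous ((z : H Plane) : Dual' Plane → ℝ) := continuous_of_mem z.2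
  have hδ : ∀ i, ∃ δ : ℝ, 0 < δ ∧ ∀ q, dist q (p i) ≤ δ →
      |(z : H Plane) q - (z : H Plane) (p i)| ≤ ε / (16 * m) := fun i => by
    obtain ⟨δ, hδ, h1⟩ := Metric.continuous_iff.mp hzc (p i) (ε / (16 * m)) (by positivity)
    exact ⟨δ / 2, half_pos hδ, fun q hq => (h1 q (by linarith)).le⟩
  choose δ hδ0 hδ1 using hδ
  obtain ⟨η, hη0, hη1, hη2⟩ : ∃ η : ℝ, 0 < η ∧ (∀ i, η ≤ δ i) ∧ m * η ≤ ε / 16 := by
    have h1 : ∀ᶠ η : ℝ in 𝓝[>] 0, ∀ i, η ≤ δ i := by
      rw [Filter.eventually_all]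
      intro i
      have h2 : Tendsto (fun η : ℝ => η) (𝓝[>] 0) (𝓝 0) :=
        tendsto_id.mono_left nhdsWithin_le_nhds
      exact h2.eventually_le_const (hδ0 i)
    have h3 : ∀ᶠ η : ℝ in 𝓝[>] 0, m * η ≤ ε / 16 := by
      have h2 : Tendsto (fun η : ℝ => m * η) (𝓝[>] 0) (𝓝 (m * 0)) :=
        (tendsto_id.mono_left nhdsWithin_le_nhds).const_mul _
      rw [mul_zero] at h2
      exact h2.eventually_le_const (by positivity)
    obtain ⟨η, h4, h5, h6⟩ := (h1.and (h3.and self_mem_nhdsWithin)).exists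
    exact ⟨η, h6, h4, h5⟩
  -- signs
  set c : Fin m → ℝ := fun i => if 0 ≤ (z : H Plane) (p i) then 1 else -1 with hc
  have hc1 : ∀ i, c i = 1 ∨ c i = -1 := fun i => by
    simp only [hc]; split_ifs
    · exact Or.inl rfl
    · exact Or.inr rfl
  have hcz : ∀ i, c i * (z : H Plane) (p i) = |(z : H Plane) (p i)| := fun i => by
    simp only [hc]; split_ifs with h1
    · rw [one_mul, abs_of_nonneg h1]
    · rw [abs_of_neg (not_le.mp h1)]; ring
  obtain ⟨p', y, hd, hyh, hyp, hFy⟩ := modify_family F (h := h) (ε := ε / (2 * m)) (η := η)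
    (by positivity) hη0 m g hgh p c hc1
  refine ⟨y, ?_, ?_, ?_⟩
  · refine (norm_mono (f := (y : H Plane)) (g := (h : H Plane)) fun φ => ?_).trans
      (norm_dom_le hl0 hl1)
    exact (hyh φ).trans (le_abs_self _)
  · have h1 : (m : ℝ) * (ε / (2 * m)) = ε / 2 := by field_simp
    rw [h1] at hFy
    have h2 := (abs_le.mp hFy).1
    linarith
  · -- the coordinates of the perturbed family
    have hcoord : ∀ (x : Plane), ‖x‖ = 1 → ∀ i, |(|p' i x| - |p i x|)| ≤ η := by
      intro x hx i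
      refine (abs_abs_sub_abs_le_abs_sub _ _).trans ?_
      rw [← _root_.sub_apply]
      refine ((p' i - p i).le_opNorm x).trans ?_
      rw [hx, mul_one, ← dist_eq_norm]
      exact hd i
    have hsum : ∀ x : Plane, ‖x‖ = 1 → ∑ i, |p i x| = 1 →
        1 - m * η ≤ ∑ i, |p' i x| ∧ ∑ i, |p' i x| ≤ 1 + m * η := by
      intro x hx h1
      have h2 : |(∑ i, |p' i x|) - (∑ i, |p i x|)| ≤ m * η := by
        rw [← Finset.sum_sub_distrib]
        refine (Finset.abs_sum_le_sum_abs _ _).trans ?_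
        refine (Finset.sum_le_sum fun i _ => hcoord x hx i).trans ?_
        rw [Finset.sum_const, Finset.card_univ, Fintype.card_fin, nsmul_eq_mul]
      rw [h1] at h2
      have h3 := abs_le.mp h2
      constructor <;> linarith
    obtain ⟨ha1, ha2⟩ := hsum e0 norm_e0 hpa
    obtain ⟨hb1, hb2⟩ := hsum e1 norm_e1 hpb
    set w := (1 + m * η)⁻¹ with hw
    have hw0 : 0 < 1 + m * η := by positivity
    have hwpos : 0 < w := inv_pos.mpr hw0
    have hadm : Adm fun i => w • p' i := adm_iff.mpr (by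
      simp only [_root_.smul_apply, smul_eq_mul, abs_mul, abs_of_pos hwpos]
      rw [← Finset.mul_sum, ← Finset.mul_sum, hw, inv_mul_le_iff₀ hw0, inv_mul_le_iff₀ hw0,
        mul_one]
      exact ⟨ha2, hb2⟩)
    have h1 := (((z + y : FBL Plane) : H Plane)).sum_le_norm hadm
    have h2 : ∀ i, |((z + y : FBL Plane) : H Plane) (w • p' i)| =
        w * |(z : H Plane) (p' i) + (y : H Plane) (p' i)| := fun i => by
      rw [H.hom _ _ _ hwpos.le, abs_mul, abs_of_pos hwpos]
      rfl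
    simp only [h2] at h1
    rw [← Finset.mul_sum, hw, inv_mul_le_iff₀ hw0] at h1
    -- the lower estimate
    have h3 : ∀ i, |(z : H Plane) (p i)| - ε / (16 * m) + (h : H Plane) (p' i) ≤
        |(z : H Plane) (p' i) + (y : H Plane) (p' i)| := fun i => by
      rw [hyp i]
      have h4 := hδ1 i (p' i) ((hd i).trans (hη1 i))
      have h5 : c i * ((z : H Plane) (p' i) + c i * (h : H Plane) (p' i)) =
          |(z : H Plane) (p i)| + c i * ((z : H Plane) (p' i) - (z : H Plane) (p i)) +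
            (h : H Plane) (p' i) := by
        rw [← hcz i]
        have h6 : c i * c i = 1 := by rcases hc1 i with h | h <;> rw [h] <;> norm_num
        have h7 : c i * ((z : H Plane) (p' i) + c i * (h : H Plane) (p' i)) =
          c i * (z : H Plane) (p' i) + (c i * c i) * (h : H Plane) (p' i) := by ring
        rw [h7, h6]
        ring
      have h6 : |c i| = 1 := by rcases hc1 i with h | h <;> rw [h] <;> norm_num
      have h7 : |(z : H Plane) (p' i) + c i * (h : H Plane) (p' i)| =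
          |c i * ((z : H Plane) (p' i) + c i * (h : H Plane) (p' i))| := by
        rw [abs_mul, h6, one_mul]
      rw [h7]
      refine le_trans ?_ (le_abs_self _)
      rw [h5]
      have h8 : |c i * ((z : H Plane) (p' i) - (z : H Plane) (p i))| ≤ ε / (16 * m) := by
        rw [abs_mul, h6, one_mul]; exact h4
      have h9 := (abs_le.mp h8).1
      linarith
    have h4 : ∑ i, |(z : H Plane) (p i)| - ε / 16 + ∑ i, (h : H Plane) (p' i) ≤
        ∑ i, |(z : H Plane) (p' i) + (y : H Plane) (p' i)| := by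
      have h5 := Finset.sum_le_sum fun i (_ : i ∈ Finset.univ) => h3 i
      rw [Finset.sum_add_distrib, Finset.sum_sub_distrib, Finset.sum_const, Finset.card_univ,
        Fintype.card_fin, nsmul_eq_mul] at h5
      have h6 : (m : ℝ) * (ε / (16 * m)) = ε / 16 := by field_simp
      rw [h6] at h5
      exact h5
    have h5 : 1 - m * η ≤ ∑ i, (h : H Plane) (p' i) := by
      have h6 : ∀ i, (h : H Plane) (p' i) = l * |p' i e0| + (1 - l) * |p' i e1| := fun i => rfl
      simp only [h6]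
      rw [Finset.sum_add_distrib, ← Finset.mul_sum, ← Finset.mul_sum]
      nlinarith
    have h6 : ‖(z + y : FBL Plane)‖ = ‖((z + y : FBL Plane) : H Plane)‖ := rfl
    rw [h6]
    have h7 : 2 - ε / 4 ≤ (1 + m * η) * ‖((z + y : FBL Plane) : H Plane)‖ := by linarith
    have h8 : 0 ≤ ‖((z + y : FBL Plane) : H Plane)‖ := norm_nonneg _
    by_contra hcon
    push Not at hcon
    have h9 : (1 + m * η) * ‖((z + y : FBL Plane) : H Plane)‖ ≤
        (1 + ε / 16) * ‖((z + y : FBL Plane) : H Plane)‖ :=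
      mul_le_mul_of_nonneg_right (by linarith) h8
    nlinarith

/-- The Daugavet property from the slice condition. -/
theorem daugavet_of_slice {X : Type*} [NormedAddCommGroup X] [NormedSpace ℝ X]
    (h : ∀ (z : X) (F : X →L[ℝ] ℝ), ‖z‖ = 1 → ‖F‖ = 1 → ∀ ε : ℝ, 0 < ε →
      ∃ y : X, ‖y‖ ≤ 1 ∧ 1 - ε ≤ F y ∧ 2 - ε ≤ ‖z + y‖) : Daugavet X := by
  intro T hT
  obtain ⟨f, z, hf, hz, rfl⟩ := exists_smulRight hT
  refine le_antisymm ((norm_add_le _ _).trans (add_le_add_left ContinuousLinearMap.norm_id_le _)) ?_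
  have hfn : 0 < ‖f‖ := norm_pos_iff.mpr hf
  have hzn : 0 < ‖z‖ := norm_pos_iff.mpr hz
  rw [ContinuousLinearMap.norm_smulRight_apply]
  set t := ‖f‖ * ‖z‖ with ht
  have ht0 : 0 < t := mul_pos hfn hzn
  refine le_of_forall_pos_le_add fun δ hδ => ?_
  -- choice of `ε`
  set ε := δ / (2 * t + 1) with hε
  have hε0 : 0 < ε := by positivity
  obtain ⟨y, hy, hFy, hzy⟩ := h (‖z‖⁻¹ • z) (‖f‖⁻¹ • f)
    (by rw [norm_smul, norm_inv, norm_norm, inv_mul_cancel₀ hzn.ne'])
    (by rw [norm_smul, norm_inv, norm_norm, inv_mul_cancel₀ hfn.ne']) ε hε0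
  set z' := ‖z‖⁻¹ • z with hz'
  have hz'n : ‖z'‖ = 1 := by rw [hz', norm_smul, norm_inv, norm_norm, inv_mul_cancel₀ hzn.ne']
  have hfy : f y = ‖f‖ * (‖f‖⁻¹ • f) y := by
    rw [_root_.smul_apply, smul_eq_mul, mul_inv_cancel_left₀ hfn.ne']
  set a := (‖f‖⁻¹ • f) y with ha
  have ha1 : a ≤ 1 := by
    have h1 := (‖f‖⁻¹ • f).le_opNorm y
    rw [norm_smul, norm_inv, norm_norm, inv_mul_cancel₀ hfn.ne', one_mul] at h1
    exact (le_abs_self _).trans (h1.trans hy)
  have hTy : (ContinuousLinearMap.id ℝ X + f.smulRight z) y = y + (t * a) • z' := by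
    rw [_root_.add_apply, ContinuousLinearMap.id_apply, ContinuousLinearMap.smulRight_apply, hfy,
      hz', smul_smul]
    congr 2
    rw [ht]
    field_simp
  have h1 : ‖y + (t * a) • z'‖ ≤ ‖ContinuousLinearMap.id ℝ X + f.smulRight z‖ := by
    rw [← hTy]
    refine (ContinuousLinearMap.le_opNorm _ y).trans ?_
    exact mul_le_of_le_one_right (norm_nonneg _) hy
  have h2 : ‖y + t • z'‖ ≤ ‖y + (t * a) • z'‖ + t * ε := by
    have h3 : y + t • z' = (y + (t * a) • z') + (t * (1 - a)) • z' := by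
      rw [add_assoc, ← add_smul]; congr 2; ring
    rw [h3]
    refine (norm_add_le _ _).trans (add_le_add le_rfl ?_)
    rw [norm_smul, hz'n, mul_one, Real.norm_eq_abs, abs_of_nonneg (by nlinarith)]
    exact mul_le_mul_of_nonneg_left (by linarith) ht0.le
  have h3 : 1 + t - (1 + t) * ε ≤ ‖y + t • z'‖ := by
    rcases le_total t 1 with h4 | h4
    · have h5 : z' + y = (y + t • z') + (1 - t) • z' := by
        rw [sub_smul, one_smul]; abel
      have h6 := norm_add_le (y + t • z') ((1 - t) • z')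
      rw [← h5, norm_smul, hz'n, mul_one, Real.norm_eq_abs, abs_of_nonneg (by linarith)] at h6
      nlinarith
    · have h5 : t • (z' + y) = (y + t • z') + (t - 1) • y := by
        rw [sub_smul, one_smul, smul_add]; abel
      have h6 := norm_add_le (y + t • z') ((t - 1) • y)
      rw [← h5, norm_smul, norm_smul, Real.norm_eq_abs, Real.norm_eq_abs, abs_of_pos ht0,
        abs_of_nonneg (by linarith)] at h6
      nlinarith
  have h4 : (1 + 2 * t) * ε = δ := by
    rw [hε, mul_comm, add_comm 1 (2 * t)]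
    exact div_mul_cancel₀ _ (by positivity)
  linarith

theorem daugavet_plane : Daugavet (FBL Plane) :=
  daugavet_of_slice fun z F hz hF _ hε => slice z hz F hF hε

/-- There is a Banach space `E`, namely the two-dimensional `ℓ_1`, such that the free Banach lattice
generated by `E` has the Daugavet property. -/
theorem result : ∃ (E : Type) (_ : NormedAddCommGroup E) (_ : NormedSpace ℝ E),
    CompleteSpace E ∧ Nonempty (E ≃ₗᵢ[ℝ] PiLp 1 (fun _ : Fin 2 => ℝ)) ∧ Daugavet (FBL E) :=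
  ⟨Plane, inferInstance, inferInstance, inferInstance, ⟨LinearIsometryEquiv.refl ℝ _⟩,
    daugavet_plane⟩

end Pool.Agent.Results.MP_207313_an.DaugavetPlane
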